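import Pool.Agent.U753.MX.Stm2

/-!
# Project MX, package PF: the partition function in terms of the eigenvalues
-/

set_option autoImplicit false

open scoped BigOperators Matrix ComplexOrder

noncomputable section

namespace Pool.Agent.U44.MX

open Pool.Agent.U753.MX
open Pool.Agent.Results.MP_953b23_mp.ThermalCriterion (partition energy)

theorem t_pf : StmPF := by
  intro n _ _ H hH E β
  obtain ⟨lam, hlam⟩ : ∃ lam : n → ℝ, lam = hH.eigenvalues := ⟨_, rfl⟩
  obtain ⟨U, hUdef⟩ : ∃ U : Matrix n n ℂ, U = (hH.eigenvectorUnitary : Matrix n n ℂ) := ⟨_, rfl⟩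
  have hUU : Uᴴ * U = 1 := by
    rw [hUdef]; exact Unitary.coe_star_mul_self hH.eigenvectorUnitary
  have hUU' : U * Uᴴ = 1 := by
    rw [hUdef]; exact Unitary.coe_mul_star_self hH.eigenvectorUnitary
  have hspec : H = U * Matrix.diagonal (fun i => ((lam i : ℝ) : ℂ)) * Uᴴ := by
    rw [hUdef, hlam]; exact hH.spectral_theorem
  have hinv : U⁻¹ = Uᴴ := Matrix.inv_eq_right_inv hUU'
  obtain ⟨μ, hμ⟩ : ∃ μ : n → ℝ, μ = fun i => -(β * (lam i - E)) := ⟨_, rfl⟩
  have hneg : -((β : ℂ) • (H - (E : ℂ) • (1 : Matrix n n ℂ))) =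
      U * Matrix.diagonal (fun i => ((μ i : ℝ) : ℂ)) * Uᴴ := by
    have h1 : (Matrix.diagonal (fun i => ((μ i : ℝ) : ℂ)) : Matrix n n ℂ) =
        -((β : ℂ) • (Matrix.diagonal (fun i => ((lam i : ℝ) : ℂ)) -
          (E : ℂ) • (1 : Matrix n n ℂ))) := by
      ext a b
      by_cases h : a = b
      · subst h
        simp [hμ]
      · simp [Matrix.diagonal_apply_ne _ h, Matrix.one_apply_ne h]
    rw [h1]
    have h2 : U * (1 : Matrix n n ℂ) * Uᴴ = 1 := by rw [mul_one, hUU']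
    have h3 : U * -((β : ℂ) • (Matrix.diagonal (fun i => ((lam i : ℝ) : ℂ)) -
          (E : ℂ) • (1 : Matrix n n ℂ))) * Uᴴ =
        -((β : ℂ) • (U * Matrix.diagonal (fun i => ((lam i : ℝ) : ℂ)) * Uᴴ -
          (E : ℂ) • (U * (1 : Matrix n n ℂ) * Uᴴ))) := by
      simp only [Matrix.mul_neg, Matrix.neg_mul, Matrix.mul_smul, Matrix.smul_mul,
        Matrix.mul_sub, Matrix.sub_mul]
    rw [h3, ← hspec, h2]
  have hexp : NormedSpace.exp (-((β : ℂ) • (H - (E : ℂ) • (1 : Matrix n n ℂ)))) =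
      U * Matrix.diagonal (fun j => ((Real.exp (μ j) : ℝ) : ℂ)) * Uᴴ := by
    rw [hneg, ← hinv, Matrix.exp_conj _ _ (IsUnit.of_mul_eq_one _ hUU'), Matrix.exp_diagonal]
    congr 3
    funext j
    rw [Pi.coe_exp, Complex.ofReal_exp, Complex.exp_eq_exp_ℂ]
  rw [part, hexp, Matrix.trace_mul_comm, ← mul_assoc, hUU, one_mul, Matrix.trace_diagonal,
    Complex.re_sum, partition]
  refine Finset.sum_congr rfl fun j _ => ?_
  rw [Complex.ofReal_re, hμ, hlam]

end Pool.Agent.U44.MX
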